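import Pool.Agent.Helper15_SIU.Stmts

/-!
# SIU module LNT: `Lam` in terms of `tri`
-/

set_option autoImplicit false

open MeasureTheory Filter Topology

namespace Pool.Agent.SIU.H81

open Pool.Agent.SIU

theorem flop_sig_mem {x : Fin 4 → ℂ} (hx : x 1 ≠ 0) : flop (sig x) ∈ X2.U := by
  rw [mem_U]
  simp [flop, sig, hx]

theorem LL_sig_mem (b : Bool) {x : Fin 4 → ℂ} (hx : x 1 ≠ 0) : LL b (sig x) ∈ X2.U := by
  cases b
  · exact sig_mem_U x
  · exact flop_sig_mem hx

theorem ae_ne : ∀ᵐ x : Fin 4 → ℂ, x 1 ≠ 0 := by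
  have h : (volume : Measure (Fin 4 → ℂ)) {x | x 1 = 0} = 0 := by
    have := MeasureTheory.Measure.pi_hyperplane (μ := fun _ : Fin 4 => (volume : Measure ℂ)) 1 0
    exact this
  rw [ae_iff]
  simpa using h

theorem wedge_zero' (hWdg : WdgStmt) (N k l : ℕ) (K : Alt N k) :
    wedge K (0 : Alt N l) = 0 := by
  have := ((hWdg N k l).2.2.1 0 K 0).2
  rw [zero_smul, zero_smul] at this
  exact this

theorem wedge_sum (hWdg : WdgStmt) (hLnk : LnkStmt) (N k : ℕ) (hk : Even k) (K : Alt N k)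
    {m : ℕ} (a : Fin m → ℝ) (p q : Fin m → (Fin N → ℂ) →L[ℝ] ℝ) (s : Finset (Fin m)) :
    wedge K (∑ i ∈ s, a i • cc2 (p i) (q i)) = ∑ i ∈ s, a i • w1 (p i) (w1 (q i) K) := by
  classical
  induction s using Finset.induction_on with
  | empty => rw [Finset.sum_empty, Finset.sum_empty]; exact wedge_zero' hWdg N k 2 K
  | insert i s hi ih =>
      rw [Finset.sum_insert hi, Finset.sum_insert hi, (hWdg N k 2).2.1, ih,
        ((hWdg N k 2).2.2.1 _ _ _).2, hLnk.1 N k hk]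

theorem comp_sum {N n k : ℕ} (L : (Fin n → ℂ) →L[ℝ] (Fin N → ℂ)) {m : ℕ}
    (a : Fin m → ℝ) (w : Fin m → Alt N k) :
    (∑ i, a i • w i).compContinuousLinearMap L =
      ∑ i, a i • (w i).compContinuousLinearMap L := by
  ext v
  simp only [ContinuousAlternatingMap.compContinuousLinearMap_apply,
    ContinuousAlternatingMap.sum_apply, ContinuousAlternatingMap.smul_apply]

theorem comp_cc2 (hWon : WonStmt) {N n : ℕ} (L : (Fin n → ℂ) →L[ℝ] (Fin N → ℂ))
    (b c : (Fin N → ℂ) →L[ℝ] ℝ) :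
    (cc2 b c).compContinuousLinearMap L = cc2 (b.comp L) (c.comp L) := by
  have hcst : (cst N 1).compContinuousLinearMap L = cst n 1 := by
    ext v
    rfl
  unfold cc2
  rw [(hWon N 1).2.2.2.1, (hWon N 0).2.2.2.1, hcst]

theorem fderiv_comp' (h : E7 → ℝ) (hh : InvFn h) (b : Bool) (z : E7) (hU : LL b z ∈ X2.U) :
    fderiv ℝ (fun w => h (LL b w)) z =
      (fderiv ℝ h (LL b z)).comp ((LL b).restrictScalars ℝ) := by
  have hopen : IsOpen X2.U := isOpen_U
  have hd : DifferentiableAt ℝ h (LL b z) :=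
    (hh.1.contDiffAt (hopen.mem_nhds hU)).differentiableAt (by simp)
  have h2 : HasFDerivAt (fun w => h (((LL b).restrictScalars ℝ) w))
      ((fderiv ℝ h (((LL b).restrictScalars ℝ) z)).comp ((LL b).restrictScalars ℝ)) z :=
    HasFDerivAt.comp z hd.hasFDerivAt ((LL b).restrictScalars ℝ).hasFDerivAt
  exact h2.fderiv

theorem key (hWdg : WdgStmt) (hWon : WonStmt) (hLnk : LnkStmt) (b : Bool) (K : E7 → Alt 7 6)
    (β : E7 → Alt 7 2) (m : ℕ) (a f g : Fin m → E7 → ℝ)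
    (hinv : ∀ i, InvFn (a i) ∧ InvFn (f i) ∧ InvFn (g i))
    (hβ : ∀ z ∈ X2.U, β z = ∑ i, a i z • cc2 (fderiv ℝ (f i) z) (fderiv ℝ (g i) z))
    (z : E7) (hU : LL b z ∈ X2.U) :
    lamF b K β z = ∑ i, triF b K (a i) (f i) (g i) z := by
  have hlp : lp (LL b) β z = ∑ i, a i (LL b z) • cc2 (fderiv ℝ (fun w => f i (LL b w)) z)
      (fderiv ℝ (fun w => g i (LL b w)) z) := by
    unfold lp
    rw [hβ _ hU, comp_sum]
    refine Finset.sum_congr rfl fun i _ => ?_
    rw [comp_cc2 hWon, fderiv_comp' (f i) (hinv i).2.1 b z hU,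
      fderiv_comp' (g i) (hinv i).2.2 b z hU]
  have h1 := wedge_sum hWdg hLnk 7 6 (by decide) (K z) (fun i => a i (LL b z))
    (fun i => fderiv ℝ (fun w => f i (LL b w)) z) (fun i => fderiv ℝ (fun w => g i (LL b w)) z)
    Finset.univ
  rw [← hlp] at h1
  exact h1

/-- MODULE LNT -/
theorem lnt (hWdg : WdgStmt) (hWon : WonStmt) (hLnk : LnkStmt) (hLin : LinStmt) : LntStmt := by
  intro b K hKc hKb β m a f g hinv hβ
  have hint : ∀ i, Integrable (chi (triF b K (a i) (f i) (g i))) := by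
    intro i
    obtain ⟨h1, h2, h3⟩ := hinv i
    exact ((hLin b K hKc hKb).2 (a i) (f i) (g i) h1 h2 h3).2.2.2
  unfold Lam tri
  rw [← integral_finsetSum _ (fun i _ => hint i)]
  apply integral_congr_ae
  filter_upwards [ae_ne] with x hx
  have hU := LL_sig_mem b hx
  have hk := key hWdg hWon hLnk b K β m a f g hinv hβ (sig x) hU
  simp only [chi]
  rw [hk, ContinuousAlternatingMap.sum_apply]

end Pool.Agent.SIU.H81
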